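import Mathlib

/-!
A sequence of trees that is `k`-universal for every `k` simultaneously.
-/

namespace Pool.Agent.Results.MP_f40460_co.UniversalTrees

open SimpleGraph Filter

/-- The number of `k`-subtrees: vertex sets of size `k` inducing a connected subgraph. -/
noncomputable def Z {V : Type} [Fintype V] (k : ℕ) (G : SimpleGraph V) : ℕ :=
  {U : Finset V | U.card = k ∧ (G.induce (U : Set V)).Connected}.ncard

/-- The number of `k`-subtrees of `G` whose induced subgraph is isomorphic to `S`. -/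
noncomputable def c {V : Type} [Fintype V] {k : ℕ} (S : SimpleGraph (Fin k))
    (G : SimpleGraph V) : ℕ :=
  {U : Finset V | U.card = k ∧ (G.induce (U : Set V)).Connected ∧
    Nonempty (G.induce (U : Set V) ≃g S)}.ncard

/-- Rooted finite trees. -/
structure RT where
  V : Type
  fin : Fintype V
  G : SimpleGraph V
  r : V
  tree : G.IsTree

attribute [instance] RT.fin

/-- Two rooted trees joined by an edge between the roots. -/
def jgraph (A B : RT) : SimpleGraph (A.V ⊕ B.V) where
  Adj
    | .inl a, .inl a' => A.G.Adj a a'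
    | .inr b, .inr b' => B.G.Adj b b'
    | .inl a, .inr b => a = A.r ∧ b = B.r
    | .inr b, .inl a => a = A.r ∧ b = B.r
  symm := ⟨by
    rintro (a | a) (b | b) h
    · exact A.G.adj_symm h
    · exact h
    · exact h
    · exact B.G.adj_symm h⟩
  loopless := ⟨by
    rintro (a | a) h
    · exact A.G.loopless.irrefl a h
    · exact B.G.loopless.irrefl a h⟩

theorem jgraph_connected (A B : RT) : (jgraph A B).Connected := by
  let fA : A.G →g jgraph A B := ⟨Sum.inl, fun h => h⟩
  let fB : B.G →g jgraph A B := ⟨Sum.inr, fun h => h⟩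
  have hA : ∀ a a', (jgraph A B).Reachable (.inl a) (.inl a') := fun a a' =>
    (A.tree.connected.preconnected a a').map fA
  have hB : ∀ b b', (jgraph A B).Reachable (.inr b) (.inr b') := fun b b' =>
    (B.tree.connected.preconnected b b').map fB
  have hAB : (jgraph A B).Adj (.inl A.r) (.inr B.r) := ⟨rfl, rfl⟩
  have : Nonempty (A.V ⊕ B.V) := ⟨.inl A.r⟩
  refine ⟨?_⟩
  rintro (a | a) (b | b)
  · exact hA a b
  · exact (hA a A.r).trans (hAB.reachable.trans (hB B.r b))
  · exact (hB a B.r).trans (hAB.symm.reachable.trans (hA A.r b))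
  · exact hB a b

theorem jgraph_tree (A B : RT) : (jgraph A B).IsTree := by
  rw [isTree_iff_connected_and_card]
  have hconn := jgraph_connected A B
  refine ⟨hconn, le_antisymm ?_ hconn.card_vert_le_card_edgeSet_add_one⟩
  have hsub : (jgraph A B).edgeSet ⊆ ((Sym2.map Sum.inl '' A.G.edgeSet) ∪
      (Sym2.map Sum.inr '' B.G.edgeSet)) ∪ {s(Sum.inl A.r, Sum.inr B.r)} := by
    intro e he
    induction e using Sym2.ind with
    | _ a b =>
      rw [mem_edgeSet] at he
      rcases a with a | a <;> rcases b with b | b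
      · left; left; exact ⟨s(a, b), he, by simp⟩
      · right
        have h : a = A.r ∧ b = B.r := he
        rw [h.1, h.2]; rfl
      · right
        have h : b = A.r ∧ a = B.r := he
        rw [h.1, h.2]; exact Sym2.eq_swap
      · left; right; exact ⟨s(a, b), he, by simp⟩
  have hA := (isTree_iff_connected_and_card.1 A.tree).2
  have hB := (isTree_iff_connected_and_card.1 B.tree).2
  have h1 : (jgraph A B).edgeSet.ncard ≤ A.G.edgeSet.ncard + B.G.edgeSet.ncard + 1 := by
    refine (Set.ncard_le_ncard hsub (Set.toFinite _)).trans ?_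
    refine (Set.ncard_union_le _ _).trans ?_
    rw [Set.ncard_singleton]
    refine Nat.add_le_add_right ((Set.ncard_union_le _ _).trans ?_) 1
    exact Nat.add_le_add (Set.ncard_image_le (Set.toFinite _))
      (Set.ncard_image_le (Set.toFinite _))
  have h2 : Nat.card (jgraph A B).edgeSet = (jgraph A B).edgeSet.ncard := rfl
  have h3 : Nat.card A.G.edgeSet = A.G.edgeSet.ncard := rfl
  have h3' : Nat.card B.G.edgeSet = B.G.edgeSet.ncard := rfl
  have h4 : Nat.card (A.V ⊕ B.V) = Nat.card A.V + Nat.card B.V := Nat.card_sum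
  omega

/-- The join of rooted trees, rooted at the root of the first. -/
def join (A B : RT) : RT where
  V := A.V ⊕ B.V
  fin := inferInstance
  G := jgraph A B
  r := .inl A.r
  tree := jgraph_tree A B

/-- The one-vertex tree. -/
def single : RT where
  V := Unit
  fin := inferInstance
  G := ⊥
  r := ()
  tree := IsTree.of_subsingleton

/-! ### Counting connected sets -/

/-- Connected sets. -/
def IsConn {V : Type} (G : SimpleGraph V) (U : Finset V) : Prop :=
  (G.induce (U : Set V)).Connected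

theorem isConn_map {V W : Type} {G : SimpleGraph V} {K : SimpleGraph W} (φ : G ↪g K)
    (S : Finset V) : Nonempty (G.induce (S : Set V) ≃g
      K.induce ((S.map φ.toEmbedding : Finset W) : Set W)) := by
  have hc : ((S.map φ.toEmbedding : Finset W) : Set W) = φ '' (S : Set V) := by
    rw [Finset.coe_map]; rfl
  rw [hc]
  refine ⟨⟨Equiv.Set.image φ (S : Set V) φ.injective, ?_⟩⟩
  intro a b
  exact φ.map_adj_iff

def embL (A B : RT) : A.G ↪g jgraph A B := ⟨⟨Sum.inl, Sum.inl_injective⟩, Iff.rfl⟩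
def embR (A B : RT) : B.G ↪g jgraph A B := ⟨⟨Sum.inr, Sum.inr_injective⟩, Iff.rfl⟩

/-- The left part of a set. -/
noncomputable def lp {V W : Type} (U : Finset (V ⊕ W)) : Finset V := U.toLeft
/-- The right part of a set. -/
noncomputable def rp {V W : Type} (U : Finset (V ⊕ W)) : Finset W := U.toRight

/-- If a connected set meets both sides, it contains both roots. -/
theorem crossing {A B : RT} {U : Finset (A.V ⊕ B.V)} (hU : IsConn (jgraph A B) U)
    {a : A.V} {b : B.V} (ha : Sum.inl a ∈ U) (hb : Sum.inr b ∈ U) :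
    Sum.inl A.r ∈ U ∧ Sum.inr B.r ∈ U := by
  by_contra hno
  obtain ⟨w⟩ := hU.preconnected ⟨_, ha⟩ ⟨_, hb⟩
  have key : ∀ (x y : (U : Set (A.V ⊕ B.V))),
      ((jgraph A B).induce (U : Set (A.V ⊕ B.V))).Walk x y → x.1.isLeft = y.1.isLeft := by
    intro x y w
    induction w with
    | nil => rfl
    | cons h _ ih =>
      rename_i u v _ _
      rw [← ih]
      have h' : (jgraph A B).Adj u.1 v.1 := h
      obtain ⟨u, hu⟩ := u
      obtain ⟨v, hv⟩ := v
      rcases u with u | u <;> rcases v with v | v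
      · rfl
      · exfalso
        have h2 : u = A.r ∧ v = B.r := h'
        rw [h2.1] at hu
        rw [h2.2] at hv
        exact hno ⟨hu, hv⟩
      · exfalso
        have h2 : v = A.r ∧ u = B.r := h'
        rw [h2.2] at hu
        rw [h2.1] at hv
        exact hno ⟨hv, hu⟩
      · rfl
  have := key _ _ w
  simp at this

/-- The left part of a connected set containing the root of the left tree is connected. -/
theorem left_conn {A B : RT} {U : Finset (A.V ⊕ B.V)} (hU : IsConn (jgraph A B) U)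
    (hr : Sum.inl A.r ∈ U) : IsConn A.G (lp U) := by
  have hrL : A.r ∈ lp U := by simpa [lp] using hr
  have : Nonempty ((lp U : Finset A.V) : Set A.V) := ⟨⟨A.r, hrL⟩⟩
  let f : ↥(U : Set (A.V ⊕ B.V)) → ((lp U : Finset A.V) : Set A.V) := fun x =>
    match x with
    | ⟨.inl a, h⟩ => ⟨a, by
        have : a ∈ lp U := by simpa [lp] using h
        exact this⟩
    | ⟨.inr _, _⟩ => ⟨A.r, hrL⟩
  have key : ∀ (x y : (U : Set (A.V ⊕ B.V))),
      ((jgraph A B).induce (U : Set (A.V ⊕ B.V))).Walk x y →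
        (A.G.induce ((lp U : Finset A.V) : Set A.V)).Reachable (f x) (f y) := by
    intro x y w
    induction w with
    | nil => exact Reachable.refl _
    | cons h _ ih =>
      rename_i u v _ _
      refine Reachable.trans ?_ ih
      have h' : (jgraph A B).Adj u.1 v.1 := h
      obtain ⟨u, hu⟩ := u
      obtain ⟨v, hv⟩ := v
      rcases u with u | u <;> rcases v with v | v
      · apply Adj.reachable
        exact h'
      · have h2 : u = A.r ∧ v = B.r := h'
        obtain ⟨rfl, rfl⟩ := h2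
        exact Reachable.refl _
      · have h2 : v = A.r ∧ u = B.r := h'
        obtain ⟨rfl, rfl⟩ := h2
        exact Reachable.refl _
      · exact Reachable.refl _
  refine ⟨?_⟩
  rintro ⟨x, hx⟩ ⟨y, hy⟩
  have hx' : Sum.inl x ∈ U := by
    have : x ∈ lp U := hx
    simpa [lp] using this
  have hy' : Sum.inl y ∈ U := by
    have : y ∈ lp U := hy
    simpa [lp] using this
  obtain ⟨w⟩ := hU.preconnected ⟨_, hx'⟩ ⟨_, hy'⟩
  exact key _ _ w

/-- The same for the right part. -/
theorem right_conn {A B : RT} {U : Finset (A.V ⊕ B.V)} (hU : IsConn (jgraph A B) U)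
    (hr : Sum.inr B.r ∈ U) : IsConn B.G (rp U) := by
  have hrL : B.r ∈ rp U := by simpa [rp] using hr
  have : Nonempty ((rp U : Finset B.V) : Set B.V) := ⟨⟨B.r, hrL⟩⟩
  let f : ↥(U : Set (A.V ⊕ B.V)) → ((rp U : Finset B.V) : Set B.V) := fun x =>
    match x with
    | ⟨.inr a, h⟩ => ⟨a, by
        have : a ∈ rp U := by simpa [rp] using h
        exact this⟩
    | ⟨.inl _, _⟩ => ⟨B.r, hrL⟩
  have key : ∀ (x y : (U : Set (A.V ⊕ B.V))),
      ((jgraph A B).induce (U : Set (A.V ⊕ B.V))).Walk x y →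
        (B.G.induce ((rp U : Finset B.V) : Set B.V)).Reachable (f x) (f y) := by
    intro x y w
    induction w with
    | nil => exact Reachable.refl _
    | cons h _ ih =>
      rename_i u v _ _
      refine Reachable.trans ?_ ih
      have h' : (jgraph A B).Adj u.1 v.1 := h
      obtain ⟨u, hu⟩ := u
      obtain ⟨v, hv⟩ := v
      rcases u with u | u <;> rcases v with v | v
      · exact Reachable.refl _
      · have h2 : u = A.r ∧ v = B.r := h'
        obtain ⟨rfl, rfl⟩ := h2
        exact Reachable.refl _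
      · have h2 : v = A.r ∧ u = B.r := h'
        obtain ⟨rfl, rfl⟩ := h2
        exact Reachable.refl _
      · apply Adj.reachable
        exact h'
  refine ⟨?_⟩
  rintro ⟨x, hx⟩ ⟨y, hy⟩
  have hx' : Sum.inr x ∈ U := by
    have : x ∈ rp U := hx
    simpa [rp] using this
  have hy' : Sum.inr y ∈ U := by
    have : y ∈ rp U := hy
    simpa [rp] using this
  obtain ⟨w⟩ := hU.preconnected ⟨_, hx'⟩ ⟨_, hy'⟩
  exact key _ _ w


/-- Connected sets of size `k`. -/
noncomputable def z (k : ℕ) (A : RT) : ℕ :=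
  {U : Finset A.V | U.card = k ∧ IsConn A.G U}.ncard

/-- Connected sets of size at most `k` containing the root. -/
noncomputable def rho (k : ℕ) (A : RT) : ℕ :=
  {U : Finset A.V | U.card ≤ k ∧ A.r ∈ U ∧ IsConn A.G U}.ncard

theorem rp_eq {A B : RT} {U : Finset (A.V ⊕ B.V)} (h : ∀ b, Sum.inr b ∉ U) :
    (lp U).map (embL A B).toEmbedding = U := by
  ext x
  rcases x with x | x
  · simp [lp, embL]
  · simp [lp, embL, h x]

theorem lp_eq {A B : RT} {U : Finset (A.V ⊕ B.V)} (h : ∀ a, Sum.inl a ∉ U) :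
    (rp U).map (embR A B).toEmbedding = U := by
  ext x
  rcases x with x | x
  · simp [rp, embR, h x]
  · simp [rp, embR]

theorem conn_left_only {A B : RT} {U : Finset (A.V ⊕ B.V)} (hU : IsConn (jgraph A B) U)
    (h : ∀ b, Sum.inr b ∉ U) : IsConn A.G (lp U) := by
  obtain ⟨e⟩ := isConn_map (embL A B) (lp U)
  rw [rp_eq h] at e
  exact e.connected_iff.2 hU

theorem conn_right_only {A B : RT} {U : Finset (A.V ⊕ B.V)} (hU : IsConn (jgraph A B) U)
    (h : ∀ a, Sum.inl a ∉ U) : IsConn B.G (rp U) := by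
  obtain ⟨e⟩ := isConn_map (embR A B) (rp U)
  rw [lp_eq h] at e
  exact e.connected_iff.2 hU

theorem card_lp_rp {V W : Type} (U : Finset (V ⊕ W)) : (lp U).card + (rp U).card = U.card :=
  Finset.card_toLeft_add_card_toRight

theorem ext_lp_rp {V W : Type} {U U' : Finset (V ⊕ W)} (h1 : lp U = lp U') (h2 : rp U = rp U') :
    U = U' := by
  rw [← Finset.toLeft_disjSum_toRight (u := U), ← Finset.toLeft_disjSum_toRight (u := U')]
  have h1' : U.toLeft = U'.toLeft := h1
  have h2' : U.toRight = U'.toRight := h2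
  rw [h1', h2']

theorem rho_join (k : ℕ) (A B : RT) :
    rho (k + 1) (join A B) ≤ rho (k + 1) A * (rho k B + 1) := by
  classical
  let SA : Set (Finset A.V) := {U | U.card ≤ k + 1 ∧ A.r ∈ U ∧ IsConn A.G U}
  let SB : Set (Finset B.V) := insert ∅ {U | U.card ≤ k ∧ B.r ∈ U ∧ IsConn B.G U}
  have h1 : rho (k + 1) (join A B) ≤ (SA ×ˢ SB).ncard := by
    apply Set.ncard_le_ncard_of_injOn (fun U : Finset (A.V ⊕ B.V) => (lp U, rp U))
    · rintro (U : Finset (A.V ⊕ B.V)) ⟨hcard, hr, hU⟩
      have hcard : Finset.card (α := A.V ⊕ B.V) U ≤ k + 1 := hcard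
      have hr' : Sum.inl A.r ∈ U := hr
      have hcard' : (lp U).card + (rp U).card = U.card := card_lp_rp U
      have hrL : A.r ∈ lp U := by simpa [lp] using hr'
      refine Set.mem_prod.2 ⟨⟨by show (lp U).card ≤ k + 1; omega, hrL, left_conn hU hr'⟩, ?_⟩
      by_cases hne : (rp U) = ∅
      · exact Or.inl hne
      · right
        obtain ⟨b, hb⟩ := Finset.nonempty_of_ne_empty hne
        have hb' : Sum.inr b ∈ U := by simpa [rp] using hb
        have hrr := (crossing hU hr' hb').2
        have hpos : 0 < (lp U).card := Finset.card_pos.2 ⟨_, hrL⟩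
        refine ⟨by show (rp U).card ≤ k; omega, by simpa [rp] using hrr, right_conn hU hrr⟩
    · intro U _ U' _ h
      rw [Prod.mk.injEq] at h
      exact ext_lp_rp h.1 h.2
  refine h1.trans ?_
  rw [Set.ncard_prod]
  refine Nat.mul_le_mul le_rfl ?_
  refine (Set.ncard_insert_le _ _).trans ?_
  exact le_rfl

theorem z_join (k : ℕ) (A B : RT) : z k (join A B) ≤ z k A + z k B + rho k A * rho k B := by
  classical
  let S1 : Set (Finset (A.V ⊕ B.V)) :=
    (fun U : Finset A.V => U.map (embL A B).toEmbedding) '' {U | U.card = k ∧ IsConn A.G U}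
  let S2 : Set (Finset (A.V ⊕ B.V)) :=
    (fun U : Finset B.V => U.map (embR A B).toEmbedding) '' {U | U.card = k ∧ IsConn B.G U}
  let S3 : Set (Finset (A.V ⊕ B.V)) := {U | (lp U, rp U) ∈
    ({U | U.card ≤ k ∧ A.r ∈ U ∧ IsConn A.G U} : Set (Finset A.V)) ×ˢ
    ({U | U.card ≤ k ∧ B.r ∈ U ∧ IsConn B.G U} : Set (Finset B.V))}
  have hsub : {U : Finset (A.V ⊕ B.V) | U.card = k ∧ IsConn (jgraph A B) U} ⊆ (S1 ∪ S2) ∪ S3 := by
    rintro U ⟨hcard, hU⟩
    have hcard' : (lp U).card + (rp U).card = U.card := card_lp_rp U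
    by_cases hl : ∀ a, Sum.inl a ∉ U
    · left; right
      refine ⟨rp U, ⟨?_, conn_right_only hU hl⟩, lp_eq hl⟩
      have h0 : (lp U) = ∅ := by
        ext a
        simp [lp, hl a]
      rw [h0, Finset.card_empty] at hcard'
      omega
    · by_cases hr : ∀ b, Sum.inr b ∉ U
      · left; left
        refine ⟨lp U, ⟨?_, conn_left_only hU hr⟩, rp_eq hr⟩
        have h0 : (rp U) = ∅ := by
          ext a
          simp [rp, hr a]
        rw [h0, Finset.card_empty] at hcard'
        omega
      · right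
        push Not at hl hr
        obtain ⟨a, ha⟩ := hl
        obtain ⟨b, hb⟩ := hr
        obtain ⟨h1, h2⟩ := crossing hU ha hb
        refine Set.mem_prod.2 ⟨⟨?_, by simpa [lp] using h1, left_conn hU h1⟩,
          ⟨?_, by simpa [rp] using h2, right_conn hU h2⟩⟩
        · show (lp U).card ≤ k; omega
        · show (rp U).card ≤ k; omega
  have h3 : S3.ncard ≤ rho k A * rho k B := by
    have : rho k A * rho k B = (({U | U.card ≤ k ∧ A.r ∈ U ∧ IsConn A.G U} : Set (Finset A.V)) ×ˢ
      ({U | U.card ≤ k ∧ B.r ∈ U ∧ IsConn B.G U} : Set (Finset B.V))).ncard := by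
      rw [Set.ncard_prod]; rfl
    rw [this]
    apply Set.ncard_le_ncard_of_injOn (fun U : Finset (A.V ⊕ B.V) => (lp U, rp U))
    · intro U hU; exact hU
    · intro U _ U' _ h
      rw [Prod.mk.injEq] at h
      exact ext_lp_rp h.1 h.2
  have h4 : z k (join A B) = {U : Finset (A.V ⊕ B.V) | U.card = k ∧ IsConn (jgraph A B) U}.ncard :=
    rfl
  rw [h4]
  refine (Set.ncard_le_ncard hsub (Set.toFinite _)).trans ?_
  refine (Set.ncard_union_le _ _).trans ?_
  refine Nat.add_le_add ((Set.ncard_union_le _ _).trans ?_) h3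
  exact Nat.add_le_add (Set.ncard_image_le (Set.toFinite _)) (Set.ncard_image_le (Set.toFinite _))

theorem single_sub (P : Finset Unit → Prop) (h : ∀ U, P U → U.Nonempty) :
    {U : Finset Unit | P U}.ncard ≤ 1 := by
  rw [Set.ncard_le_one]
  intro a ha b hb
  obtain ⟨x, hx⟩ := h a ha
  obtain ⟨y, hy⟩ := h b hb
  ext t
  exact iff_of_true hx hy

theorem rho_single (k : ℕ) : rho k single ≤ 1 :=
  single_sub _ fun _ hU => ⟨_, hU.2.1⟩

theorem z_single (k : ℕ) : z k single ≤ 1 :=
  single_sub _ fun _ hU => by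
    obtain ⟨⟨x, hx⟩⟩ := hU.2.nonempty
    exact ⟨x, hx⟩

theorem all_sub (A : RT) (P : Finset A.V → Prop) :
    {U : Finset A.V | P U}.ncard ≤ 2 ^ Fintype.card A.V := by
  have h1 := Set.ncard_le_ncard (Set.subset_univ {U : Finset A.V | P U}) (Set.toFinite _)
  rw [Set.ncard_univ, Nat.card_eq_fintype_card, Fintype.card_finset] at h1
  exact h1

/-! ### The sequence -/

/-- A step of the construction. -/
def step (T S : RT) : RT := join (join (join single T) T) S

theorem rho_step (k : ℕ) (T S : RT) (N : ℕ) (hS : 2 ^ Fintype.card S.V ≤ N + 2) :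
    rho (k + 1) (step T S) ≤ (rho k T + 1) * (rho k T + 1) * (N + 3) := by
  have h1 := rho_join k (join (join single T) T) S
  have h2 := rho_join k (join single T) T
  have h3 := rho_join k single T
  have h4 := rho_single (k + 1)
  have h5 : rho k S ≤ N + 2 := (all_sub S _).trans hS
  calc rho (k + 1) (step T S) ≤ rho (k + 1) (join (join single T) T) * (rho k S + 1) := h1
    _ ≤ (rho (k + 1) (join single T) * (rho k T + 1)) * (N + 3) :=
        Nat.mul_le_mul h2 (by omega)
    _ ≤ ((rho k T + 1) * (rho k T + 1)) * (N + 3) := by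
        refine Nat.mul_le_mul (Nat.mul_le_mul (h3.trans ?_) le_rfl) le_rfl
        calc rho (k + 1) single * (rho k T + 1) ≤ 1 * (rho k T + 1) :=
              Nat.mul_le_mul h4 le_rfl
          _ = rho k T + 1 := one_mul _

theorem rho_mono {k l : ℕ} (h : k ≤ l) (A : RT) : rho k A ≤ rho l A := by
  apply Set.ncard_le_ncard _ (Set.toFinite _)
  rintro U ⟨h1, h2, h3⟩
  exact ⟨h1.trans h, h2, h3⟩

theorem rho_join' (k : ℕ) (A B : RT) : rho k (join A B) ≤ rho k A * (rho k B + 1) := by
  cases k with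
  | zero =>
    have : rho 0 (join A B) = 0 := by
      unfold rho
      rw [Set.ncard_eq_zero (Set.toFinite _)]
      ext U
      simp only [Set.mem_ofPred_eq, Set.mem_empty_iff_false, iff_false, not_and]
      intro h1 h2
      rw [Nat.le_zero, Finset.card_eq_zero] at h1
      rw [h1] at h2
      simp at h2
    rw [this]
    exact Nat.zero_le _
  | succ k =>
    refine (rho_join k A B).trans (Nat.mul_le_mul le_rfl ?_)
    exact Nat.add_le_add_right (rho_mono (Nat.le_succ k) B) 1

theorem z_step (k : ℕ) (T S : RT) (N : ℕ) (hS : 2 ^ Fintype.card S.V ≤ N + 2) :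
    z k (step T S) ≤ 2 * z k T + (rho k T + 2) * (rho k T + 2) * (N + 4) := by
  have a1 := z_join k single T
  have a2 := z_join k (join single T) T
  have a3 := z_join k (join (join single T) T) S
  have b1 := rho_join' k single T
  have b2 := rho_join' k (join single T) T
  have c1 := rho_single k
  have c2 := z_single k
  have d1 : rho k S ≤ N + 2 := (all_sub S _).trans hS
  have d2 : z k S ≤ N + 2 := (all_sub S _).trans hS
  generalize hρ : rho k T = ρ at *
  have e1 : rho k (join single T) ≤ ρ + 1 := by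
    refine b1.trans ?_
    calc rho k single * (ρ + 1) ≤ 1 * (ρ + 1) := Nat.mul_le_mul c1 le_rfl
      _ = ρ + 1 := one_mul _
  have e2 : rho k (join (join single T) T) ≤ (ρ + 1) * (ρ + 1) :=
    b2.trans (Nat.mul_le_mul e1 le_rfl)
  have f1 : z k (join single T) ≤ 1 + z k T + ρ := by
    refine a1.trans ?_
    have : rho k single * ρ ≤ 1 * ρ := Nat.mul_le_mul c1 le_rfl
    omega
  have f2 : z k (join (join single T) T) ≤ 1 + 2 * z k T + ρ + (ρ + 1) * ρ := by
    refine a2.trans ?_
    have : rho k (join single T) * ρ ≤ (ρ + 1) * ρ := Nat.mul_le_mul e1 le_rfl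
    omega
  have f3 : rho k (join (join single T) T) * rho k S ≤ (ρ + 1) * (ρ + 1) * (N + 2) :=
    Nat.mul_le_mul e2 d1
  show z k (join (join (join single T) T) S) ≤ _
  refine a3.trans ?_
  nlinarith [Nat.zero_le (ρ * ρ * N), Nat.zero_le (ρ * N)]

/-! ### Copies -/

theorem c_join {k : ℕ} (hk : 1 ≤ k) (S : SimpleGraph (Fin k)) (A B : RT) :
    c S A.G + c S B.G ≤ c S (join A B).G := by
  classical
  let S1 : Set (Finset (A.V ⊕ B.V)) := (fun U : Finset A.V => U.map (embL A B).toEmbedding) ''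
    {U | U.card = k ∧ (A.G.induce (U : Set A.V)).Connected ∧
      Nonempty (A.G.induce (U : Set A.V) ≃g S)}
  let S2 : Set (Finset (A.V ⊕ B.V)) := (fun U : Finset B.V => U.map (embR A B).toEmbedding) ''
    {U | U.card = k ∧ (B.G.induce (U : Set B.V)).Connected ∧
      Nonempty (B.G.induce (U : Set B.V) ≃g S)}
  have h1 : S1.ncard = c S A.G := Set.ncard_image_of_injective _ (Finset.map_injective _)
  have h2 : S2.ncard = c S B.G := Set.ncard_image_of_injective _ (Finset.map_injective _)
  have hdisj : Disjoint S1 S2 := by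
    rw [Set.disjoint_left]
    rintro _ ⟨U, hU, rfl⟩ ⟨U', hU', he⟩
    have hne : U.Nonempty := Finset.card_pos.1 (by rw [hU.1]; exact hk)
    obtain ⟨a, ha⟩ := hne
    have h3 : Sum.inl a ∈ U'.map (embR A B).toEmbedding := by
      have he' : U'.map (embR A B).toEmbedding = U.map (embL A B).toEmbedding := he
      rw [he']
      exact Finset.mem_map_of_mem (embL A B).toEmbedding ha
    obtain ⟨b, -, hb⟩ := Finset.mem_map.1 h3
    cases hb
  have hsub : S1 ∪ S2 ⊆ {U : Finset (A.V ⊕ B.V) | U.card = k ∧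
      ((jgraph A B).induce (U : Set (A.V ⊕ B.V))).Connected ∧
      Nonempty ((jgraph A B).induce (U : Set (A.V ⊕ B.V)) ≃g S)} := by
    rintro _ (⟨U, ⟨hc, hcon, ⟨e⟩⟩, rfl⟩ | ⟨U, ⟨hc, hcon, ⟨e⟩⟩, rfl⟩)
    · obtain ⟨f⟩ := isConn_map (embL A B) U
      exact ⟨by simpa using hc, f.connected_iff.1 hcon, ⟨f.symm.trans e⟩⟩
    · obtain ⟨f⟩ := isConn_map (embR A B) U
      exact ⟨by simpa using hc, f.connected_iff.1 hcon, ⟨f.symm.trans e⟩⟩
  rw [← h1, ← h2, ← Set.ncard_union_eq hdisj (Set.toFinite _) (Set.toFinite _)]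
  exact Set.ncard_le_ncard hsub (Set.toFinite _)

theorem c_self {k : ℕ} (S : SimpleGraph (Fin k)) (A : RT) (e : A.G ≃g S) : 1 ≤ c S A.G := by
  classical
  have hcard : Fintype.card A.V = k := by
    rw [Fintype.card_congr e.toEquiv, Fintype.card_fin]
  have hiso : Nonempty (A.G.induce ((Finset.univ : Finset A.V) : Set A.V) ≃g A.G) := by
    rw [Finset.coe_univ]
    exact ⟨⟨Equiv.Set.univ A.V, Iff.rfl⟩⟩
  obtain ⟨f⟩ := hiso
  have hmem : (Finset.univ : Finset A.V) ∈ {U : Finset A.V | U.card = k ∧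
      (A.G.induce (U : Set A.V)).Connected ∧ Nonempty (A.G.induce (U : Set A.V) ≃g S)} :=
    ⟨by rw [Finset.card_univ, hcard], f.connected_iff.2 A.tree.connected, ⟨f.trans e⟩⟩
  exact Nat.succ_le_of_lt ((Set.ncard_pos (Set.toFinite _)).2 ⟨_, hmem⟩)

theorem c_le_Z {V : Type} [Fintype V] {k : ℕ} (S : SimpleGraph (Fin k)) (G : SimpleGraph V) :
    c S G ≤ Z k G := by
  apply Set.ncard_le_ncard _ (Set.toFinite _)
  rintro U ⟨h1, h2, -⟩
  exact ⟨h1, h2⟩

/-! ### The enumeration of small trees -/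

/-- All trees on the vertex sets `Fin (n+1)`. -/
abbrev TT := Σ n : ℕ, {G : SimpleGraph (Fin (n + 1)) // G.IsTree}

def toRT (x : TT) : RT := ⟨Fin (x.1 + 1), inferInstance, x.2.1, 0, x.2.2⟩

open Classical in
/-- The `j`-th tree of the enumeration attached to a surjection `e`. -/
noncomputable def enumT (e : ℕ → TT) (j : ℕ) : RT :=
  if 2 ^ ((e (Nat.unpair j).1).1 + 1) ≤ j + 2 then toRT (e (Nat.unpair j).1) else single

theorem enumT_eq (e : ℕ → TT) (j : ℕ) (x : TT) (h : e (Nat.unpair j).1 = x)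
    (h2 : 2 ^ (x.1 + 1) ≤ j + 2) : enumT e j = toRT x := by
  unfold enumT
  rw [h, if_pos h2]

theorem exists_enum : ∃ S : ℕ → RT, (∀ j, 2 ^ Fintype.card (S j).V ≤ j + 2) ∧
    ∀ (k : ℕ) (_ : 1 ≤ k) (T : SimpleGraph (Fin k)), T.IsTree → ∃ j, Nonempty ((S j).G ≃g T) := by
  classical
  have hne : Nonempty TT := by
    have : Subsingleton (Fin (0 + 1)) := inferInstanceAs (Subsingleton (Fin 1))
    exact ⟨⟨0, ⊥, IsTree.of_subsingleton⟩⟩
  obtain ⟨e, he⟩ := exists_surjective_nat TT
  refine ⟨enumT e, ?_, ?_⟩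
  · intro j
    unfold enumT
    split_ifs with h
    · have : Fintype.card (toRT (e (Nat.unpair j).1)).V = (e (Nat.unpair j).1).1 + 1 := by
        show Fintype.card (Fin _) = _
        rw [Fintype.card_fin]
      rw [this]
      exact h
    · have : Fintype.card single.V = 1 := by
        show Fintype.card Unit = 1
        simp
      rw [this]
      omega
  · intro k hk T hT
    obtain ⟨n, rfl⟩ : ∃ n, k = n + 1 := ⟨k - 1, by omega⟩
    obtain ⟨i, hi⟩ := he ⟨n, T, hT⟩
    refine ⟨Nat.pair i (2 ^ (n + 1)), ?_⟩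
    have h1 : (Nat.unpair (Nat.pair i (2 ^ (n + 1)))).1 = i := by simp
    have h2 : 2 ^ (n + 1) ≤ Nat.pair i (2 ^ (n + 1)) := Nat.right_le_pair _ _
    rw [enumT_eq e _ ⟨n, T, hT⟩ (by rw [h1, hi]) (by show 2 ^ (n + 1) ≤ _; omega)]
    exact ⟨RelIso.refl _⟩

/-- The trees. -/
def seq (S : ℕ → RT) : ℕ → RT
  | 0 => single
  | N + 1 => step (seq S N) (S N)

section main

variable {S : ℕ → RT} (hS : ∀ j, 2 ^ Fintype.card (S j).V ≤ j + 2)

include hS in
/-- The number of small connected sets at the root is polynomial. -/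
theorem rho_seq (k : ℕ) : ∃ e : ℕ, ∀ N, rho k (seq S N) ≤ (N + 3) ^ e := by
  induction k with
  | zero =>
    refine ⟨0, fun N => ?_⟩
    have : rho 0 (seq S N) = 0 := by
      unfold rho
      rw [Set.ncard_eq_zero (Set.toFinite _)]
      ext U
      simp only [Set.mem_ofPred_eq, Set.mem_empty_iff_false, iff_false, not_and]
      intro h1 h2
      rw [Nat.le_zero, Finset.card_eq_zero] at h1
      rw [h1] at h2
      simp at h2
    rw [this]
    exact Nat.zero_le _
  | succ k ih =>
    obtain ⟨e, he⟩ := ih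
    refine ⟨2 * e + 3, fun N => ?_⟩
    cases N with
    | zero =>
      refine (rho_single (k + 1)).trans ?_
      exact Nat.one_le_pow _ _ (by omega)
    | succ N =>
      have h1 := rho_step k (seq S N) (S N) N (hS N)
      have h2 := he N
      have h3 : rho k (seq S N) + 1 ≤ (N + 3) ^ (e + 1) := by
        have h4 : 1 ≤ (N + 3) ^ e := Nat.one_le_pow _ _ (by omega)
        rw [pow_succ]
        nlinarith
      calc rho (k + 1) (seq S (N + 1)) ≤ _ := h1
        _ ≤ (N + 3) ^ (e + 1) * (N + 3) ^ (e + 1) * (N + 3) :=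
            Nat.mul_le_mul (Nat.mul_le_mul h3 h3) le_rfl
        _ = (N + 3) ^ (2 * e + 3) := by ring
        _ ≤ (N + 1 + 3) ^ (2 * e + 3) := Nat.pow_le_pow_left (by omega) _

include hS in
/-- The number of `k`-subtrees is at most a constant times `2^N`. -/
theorem z_seq (k : ℕ) : ∃ B : ℝ, 0 < B ∧ ∀ N, (z k (seq S N) : ℝ) ≤ B * 2 ^ N := by
  obtain ⟨e, he⟩ := rho_seq hS k
  -- a polynomial bound for the increment
  have hinc : ∀ N, z k (seq S (N + 1)) ≤ 2 * z k (seq S N) + (N + 4) ^ (2 * e + 3) := by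
    intro N
    have h1 := z_step k (seq S N) (S N) N (hS N)
    have h2 := he N
    have h3 : rho k (seq S N) + 2 ≤ (N + 4) ^ (e + 1) := by
      have h4 : 1 ≤ (N + 3) ^ e := Nat.one_le_pow _ _ (by omega)
      have h5 : (N + 3) ^ (e + 1) ≤ (N + 4) ^ (e + 1) := Nat.pow_le_pow_left (by omega) _
      rw [pow_succ] at h5
      nlinarith
    calc z k (seq S (N + 1)) ≤ _ := h1
      _ ≤ 2 * z k (seq S N) + (N + 4) ^ (e + 1) * (N + 4) ^ (e + 1) * (N + 4) :=
          Nat.add_le_add_left (Nat.mul_le_mul (Nat.mul_le_mul h3 h3) le_rfl) _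
      _ = 2 * z k (seq S N) + (N + 4) ^ (2 * e + 3) := by ring
  set E := 2 * e + 3
  have hsum : Summable (fun n : ℕ => ((n : ℝ) + 4) ^ E * (1 / 2 : ℝ) ^ (n + 1)) := by
    have h1 : Summable (fun n : ℕ => (n : ℝ) ^ E * (1 / 2 : ℝ) ^ n) :=
      summable_pow_mul_geometric_of_norm_lt_one E (by norm_num)
    have h2 := (summable_nat_add_iff 4).2 h1
    have h3 := h2.mul_left 8
    refine h3.congr fun n => ?_
    push_cast
    rw [pow_add, pow_succ]
    ring
  set M := ∑' n : ℕ, ((n : ℝ) + 4) ^ E * (1 / 2 : ℝ) ^ (n + 1) with hM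
  have hnn : ∀ n : ℕ, 0 ≤ ((n : ℝ) + 4) ^ E * (1 / 2 : ℝ) ^ (n + 1) := fun n => by positivity
  have key : ∀ N, (z k (seq S N) : ℝ) ≤
      (1 + ∑ n ∈ Finset.range N, ((n : ℝ) + 4) ^ E * (1 / 2 : ℝ) ^ (n + 1)) * 2 ^ N := by
    intro N
    induction N with
    | zero =>
      have h1 : z k (seq S 0) ≤ 1 := z_single k
      simp only [Finset.range_zero, Finset.sum_empty, add_zero, pow_zero, mul_one]
      exact_mod_cast h1
    | succ N ih =>
      have h1 : (z k (seq S (N + 1)) : ℝ) ≤ 2 * z k (seq S N) + ((N : ℝ) + 4) ^ E := by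
        exact_mod_cast hinc N
      rw [Finset.sum_range_succ]
      have h2 : ((N : ℝ) + 4) ^ E = ((N : ℝ) + 4) ^ E * (1 / 2 : ℝ) ^ (N + 1) * 2 ^ (N + 1) := by
        rw [mul_assoc, ← mul_pow]
        norm_num
      rw [h2] at h1
      refine h1.trans ?_
      rw [pow_succ 2 N]
      nlinarith [ih]
  refine ⟨1 + M, by have : 0 ≤ M := tsum_nonneg hnn; linarith, fun N => (key N).trans ?_⟩
  refine mul_le_mul_of_nonneg_right ?_ (by positivity)
  have := hsum.sum_le_tsum (Finset.range N) (fun n _ => hnn n)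
  linarith

/-- Linear many copies of each tree of the enumeration. -/
theorem c_seq {k : ℕ} (hk : 1 ≤ k) (T : SimpleGraph (Fin k)) {j : ℕ} (e : (S j).G ≃g T) :
    ∀ N, 2 ^ N ≤ c T (seq S (j + 1 + N)).G := by
  intro N
  induction N with
  | zero =>
    have h1 := c_self T (S j) e
    have h2 := c_join hk T (join (join single (seq S j)) (seq S j)) (S j)
    have h3 : (seq S (j + 1)) = join (join (join single (seq S j)) (seq S j)) (S j) := rfl
    rw [add_zero, h3]
    simp only [pow_zero]
    omega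
  | succ N ih =>
    have h3 : (seq S (j + 1 + (N + 1))) = join (join (join single (seq S (j + 1 + N)))
      (seq S (j + 1 + N))) (S (j + 1 + N)) := rfl
    rw [h3, pow_succ]
    have h4 := c_join hk T (join (join single (seq S (j + 1 + N))) (seq S (j + 1 + N)))
      (S (j + 1 + N))
    have h5 := c_join hk T (join single (seq S (j + 1 + N))) (seq S (j + 1 + N))
    have h6 := c_join hk T single (seq S (j + 1 + N))
    omega

theorem card_seq (S : ℕ → RT) (N : ℕ) : N ≤ Fintype.card (seq S N).V := by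
  induction N with
  | zero => exact Nat.zero_le _
  | succ N ih =>
    have : Fintype.card (seq S (N + 1)).V =
        Fintype.card (((Unit ⊕ (seq S N).V) ⊕ (seq S N).V) ⊕ (S N).V) := rfl
    rw [this, Fintype.card_sum, Fintype.card_sum, Fintype.card_sum, Fintype.card_unit]
    omega

end main

/-- There is one sequence of trees that is `k`-universal for every `k ≥ 1`. -/
theorem result : ∃ (V : ℕ → Type) (_ : ∀ n, Fintype (V n)) (T : ∀ n, SimpleGraph (V n)),
    (∀ n, (T n).IsTree) ∧ ∀ k : ℕ, 1 ≤ k →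
      (∀ᶠ n in atTop, k ≤ Fintype.card (V n)) ∧
      ∀ S : SimpleGraph (Fin k), S.IsTree →
        0 < liminf (fun n => (c S (T n) : ℝ) / (Z k (T n) : ℝ)) atTop := by
  obtain ⟨S, hS1, hS2⟩ := exists_enum
  refine ⟨fun n => (seq S n).V, fun n => (seq S n).fin, fun n => (seq S n).G,
    fun n => (seq S n).tree, fun k hk => ⟨?_, fun T hT => ?_⟩⟩
  · filter_upwards [eventually_ge_atTop k] with n hn
    exact hn.trans (card_seq S n)
  · obtain ⟨j, ⟨e⟩⟩ := hS2 k hk T hT
    obtain ⟨B, hB, hz⟩ := z_seq hS1 k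
    have hlow : ∀ᶠ n in atTop, 1 / (B * 2 ^ (j + 1)) ≤
        (c T (seq S n).G : ℝ) / (Z k (seq S n).G : ℝ) := by
      filter_upwards [eventually_ge_atTop (j + 1)] with n hn
      obtain ⟨N, rfl⟩ := Nat.exists_eq_add_of_le hn
      have h1 := c_seq (S := S) hk T e N
      have h2 := c_le_Z T (seq S (j + 1 + N)).G
      have h3 := hz (j + 1 + N)
      have h4 : (Z k (seq S (j + 1 + N)).G : ℝ) ≤ B * 2 ^ (j + 1 + N) := h3
      have h5 : (2 : ℝ) ^ N ≤ c T (seq S (j + 1 + N)).G := by exact_mod_cast h1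
      have h6 : (c T (seq S (j + 1 + N)).G : ℝ) ≤ Z k (seq S (j + 1 + N)).G := by
        exact_mod_cast h2
      have hpos : (0 : ℝ) < Z k (seq S (j + 1 + N)).G := by
        have : (0 : ℝ) < 2 ^ N := by positivity
        linarith
      rw [div_le_div_iff₀ (by positivity) hpos, one_mul]
      calc (Z k (seq S (j + 1 + N)).G : ℝ) ≤ B * 2 ^ (j + 1 + N) := h4
        _ = 2 ^ N * (B * 2 ^ (j + 1)) := by rw [pow_add]; ring
        _ ≤ c T (seq S (j + 1 + N)).G * (B * 2 ^ (j + 1)) :=
            mul_le_mul_of_nonneg_right h5 (by positivity)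
    have hpos : (0 : ℝ) < 1 / (B * 2 ^ (j + 1)) := by positivity
    refine lt_of_lt_of_le hpos (le_liminf_of_le ?_ hlow)
    apply IsBoundedUnder.isCoboundedUnder_ge
    refine ⟨1, ?_⟩
    rw [eventually_map]
    refine Eventually.of_forall fun n => ?_
    apply div_le_one_of_le₀
    · exact_mod_cast c_le_Z T (seq S n).G
    · positivity

end Pool.Agent.Results.MP_f40460_co.UniversalTrees
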